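import Mathlib
import Pool.Agent.R701.IntVal

/-!
# `Int_K(A)` can be integrally closed although `A ≠ A'`

Let `D` be an integrally closed domain with fraction field `K` and let `π` be a prime element of `D`
such that the ring `D / πD` is infinite.  Let `A = {(a, b) ∈ D × D : π ∣ a - b}`, a commutative
`D`-algebra inside `B = K × K`.  Then `Int_K(A)` is integrally closed, but the idempotent `(1, 0)` is
integral over `D` and is not in `A`.  For `D = ℤ + tℚ[t]` and `π = 1 + t` the ring `Int_K(A)` is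
moreover strictly larger than `D[X]`.
-/

open Polynomial Pool.Agent.R701.IntVal

namespace Pool.Agent.Results.MP_f9f43c_al.NotNecessarilyMaximal

universe u v

/-- The `D`-subalgebra `{(a, b) ∈ D × D : π ∣ a - b}` of `K × K`. -/
def glued (D : Type u) [CommRing D] (K : Type v) [Field K] [Algebra D K] (π : D) :
    Subalgebra D (K × K) where
  carrier := {x | ∃ a b : D, x = (algebraMap D K a, algebraMap D K b) ∧ π ∣ a - b}
  mul_mem' := by
    rintro _ _ ⟨a, b, rfl, h⟩ ⟨a', b', rfl, h'⟩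
    refine ⟨a * a', b * b', by simp, ?_⟩
    have : a * a' - b * b' = (a - b) * a' + b * (a' - b') := by ring
    rw [this]
    exact dvd_add (h.mul_right _) (h'.mul_left _)
  add_mem' := by
    rintro _ _ ⟨a, b, rfl, h⟩ ⟨a', b', rfl, h'⟩
    refine ⟨a + a', b + b', by simp, ?_⟩
    have : a + a' - (b + b') = (a - b) + (a' - b') := by ring
    rw [this]
    exact dvd_add h h'
  algebraMap_mem' := fun r => ⟨r, r, rfl, by simp⟩

section General

variable {D : Type u} [CommRing D] {K : Type v} [Field K] [Algebra D K]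

theorem glued_eq (π : D) : (Subalgebra.toSubmodule (glued D K π)) =
    Submodule.span D {((1 : K), (1 : K)), (algebraMap D K π, 0)} := by
  apply le_antisymm
  · rintro _ ⟨a, b, rfl, c, hc⟩
    rw [Submodule.mem_span_pair]
    refine ⟨b, c, ?_⟩
    have ha : a = b + π * c := by rw [← hc]; ring
    rw [ha]
    ext
    · simp [Algebra.smul_def, mul_comm]
    · simp [Algebra.smul_def]
  · rw [Submodule.span_le]
    rintro x (rfl | rfl)
    · exact ⟨1, 1, by simp, by simp⟩
    · exact ⟨π, 0, by simp, by simp⟩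

variable [IsFractionRing D K]

theorem glued_span {π : D} (hπ : π ≠ 0) :
    Submodule.span K (glued D K π : Set (K × K)) = ⊤ := by
  rw [eq_top_iff]
  rintro ⟨x, y⟩ _
  have h1 : ((1 : K), (1 : K)) ∈ Submodule.span K (glued D K π : Set (K × K)) :=
    Submodule.subset_span ⟨1, 1, by simp, by simp⟩
  have h2 : (algebraMap D K π, (0 : K)) ∈ Submodule.span K (glued D K π : Set (K × K)) :=
    Submodule.subset_span ⟨π, 0, by simp, by simp⟩
  have h3 : algebraMap D K π ≠ 0 := by
    rw [Ne, FaithfulSMul.algebraMap_eq_zero_iff D K]; exact hπ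
  have h4 : (x, y) = y • ((1 : K), (1 : K)) + ((x - y) / algebraMap D K π) •
      (algebraMap D K π, (0 : K)) := by
    ext
    · simp [h3]
    · simp
  rw [h4]
  exact Submodule.add_mem _ (Submodule.smul_mem _ _ h1) (Submodule.smul_mem _ _ h2)

omit [Algebra D K] [IsFractionRing D K] in
theorem prime_ne_dvd_one {π : D} (hπ : Prime π) : ¬ π ∣ 1 := fun h =>
  hπ.not_isUnit (isUnit_of_dvd_one h)

variable [IsDomain D]

theorem prime_ideal {π : D} (hπ : Prime π) : (Ideal.span {π}).IsPrime :=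
  (Ideal.span_singleton_prime hπ.ne_zero).mpr hπ

/-- Polynomials with values in `D` on `D` preserve congruence modulo `π`. -/
theorem congr_mod {π : D} (hπ : Prime π) (hinf : Infinite (D ⧸ Ideal.span {π})) {f : K[X]}
    (hf : ∀ d : D, ∃ d' : D, algebraMap D K d' = f.eval (algebraMap D K d)) {a b a' b' : D}
    (hab : π ∣ a - b) (ha : algebraMap D K a' = f.eval (algebraMap D K a))
    (hb : algebraMap D K b' = f.eval (algebraMap D K b)) : π ∣ a' - b' := by
  have hP := prime_ideal hπ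
  obtain ⟨s, hs, F, hF⟩ := clear_of_large (Ideal.span {π}) f f.natDegree le_rfl hf
    (fun h => (not_finite_iff_infinite.mpr hinf) h.1)
  have hev : ∀ x y : D, algebraMap D K y = f.eval (algebraMap D K x) → F.eval x = s * y := by
    intro x y hxy
    apply IsFractionRing.injective D K
    have h1 : (F.map (algebraMap D K)).eval (algebraMap D K x) = algebraMap D K (F.eval x) := by
      rw [eval_map_algebraMap, aeval_algebraMap_apply, coe_aeval_eq_eval]
    rw [← h1, hF, eval_mul, eval_C, ← hxy, map_mul]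
  have h2 : π ∣ s * (a' - b') := by
    rw [mul_sub, ← hev a a' ha, ← hev b b' hb]
    exact hab.trans (sub_dvd_eval_sub a b F)
  rcases hπ.dvd_or_dvd h2 with h3 | h3
  · exact absurd (Ideal.mem_span_singleton.mpr h3) hs
  · exact h3

variable [IsIntegrallyClosed D]

/-- `Int_K(A, A') ⊆ Int_K(A)` for the glued algebra. -/
theorem mem_IntK_of {π : D} (hπ : Prime π) (hinf : Infinite (D ⧸ Ideal.span {π})) {f : K[X]}
    (hf : f ∈ IntKPrime D K (glued D K π)) : f ∈ IntK D K (glued D K π) := by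
  have hfD := eval_mem_base (glued D K π) hf
  rintro _ ⟨a, b, rfl, hab⟩
  obtain ⟨a', ha'⟩ := hfD a
  obtain ⟨b', hb'⟩ := hfD b
  refine ⟨a', b', ?_, congr_mod hπ hinf hfD hab ha' hb'⟩
  rw [aeval_prod_apply, ha', hb', coe_aeval_eq_eval, coe_aeval_eq_eval]

theorem fg_glued (π : D) : (Subalgebra.toSubmodule (glued D K π)).FG := by
  rw [glued_eq]
  classical
  exact ⟨{((1 : K), (1 : K)), (algebraMap D K π, 0)}, by simp⟩

theorem integral_glued (π : D) : ∀ a ∈ glued D K π, IsIntegral D a := by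
  intro a ha
  have : Module.Finite D (glued D K π) := Module.Finite.iff_fg.mpr (fg_glued π)
  have h1 : IsIntegral D (⟨a, ha⟩ : glued D K π) := Algebra.IsIntegral.isIntegral _
  exact (isIntegral_algHom_iff (glued D K π).val Subtype.val_injective).mpr h1

/-- `K(X)` is the field of fractions of `Int_K(A)`. -/
theorem isFractionRing_IntK (A : Subalgebra D (K × K)) :
    IsFractionRing (IntK D K A) (RatFunc K) := by
  have hinj : Function.Injective (algebraMap (IntK D K A) (RatFunc K)) := by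
    intro x y h
    exact Subtype.ext (IsFractionRing.injective K[X] (RatFunc K) h)
  have hf : FaithfulSMul (IntK D K A) (RatFunc K) := (faithfulSMul_iff_algebraMap_injective _ _).mpr hinj
  -- every polynomial is a quotient
  have key : ∀ p : K[X], ∃ d : D, d ≠ 0 ∧ C (algebraMap D K d) * p ∈ IntK D K A := by
    intro p
    obtain ⟨d, hd2, hd⟩ := IsLocalization.integerNormalization_spec (nonZeroDivisors D) p
    refine ⟨d, nonZeroDivisors.ne_zero hd2, ?_⟩
    have h1 : C (algebraMap D K d) * p =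
        (IsLocalization.integerNormalization (nonZeroDivisors D) p).map (algebraMap D K) := by
      rw [hd, Algebra.smul_def, IsScalarTower.algebraMap_apply D K K[X]]
      rfl
    rw [h1]
    intro a ha
    rw [aeval_map_algebraMap]
    set F := IsLocalization.integerNormalization (nonZeroDivisors D) p
    have h2 : aeval a F = ((aeval (⟨a, ha⟩ : A) F : A) : K × K) :=
      aeval_algHom_apply A.val (⟨a, ha⟩ : A) F
    rw [h2]
    exact Subtype.mem _
  apply IsFractionRing.of_field
  intro z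
  obtain ⟨p, q, hq, rfl⟩ := IsFractionRing.div_surjective (A := K[X]) z
  obtain ⟨d, hd, hp⟩ := key p
  obtain ⟨e, he, hq'⟩ := key q
  have hd' : algebraMap D K d ≠ 0 := by
    rw [Ne, FaithfulSMul.algebraMap_eq_zero_iff D K]; exact hd
  have he' : algebraMap D K e ≠ 0 := by
    rw [Ne, FaithfulSMul.algebraMap_eq_zero_iff D K]; exact he
  refine ⟨(algebraMap D (IntK D K A) e) * ⟨_, hp⟩, (algebraMap D (IntK D K A) d) * ⟨_, hq'⟩, ?_⟩
  have h1 : ∀ (r : D) (x : IntK D K A), algebraMap (IntK D K A) (RatFunc K)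
      (algebraMap D (IntK D K A) r * x) =
      algebraMap K[X] (RatFunc K) (C (algebraMap D K r) * (x : K[X])) := fun r x => rfl
  rw [h1, h1]
  simp only [map_mul]
  have hC : ∀ r : D, algebraMap D K r ≠ 0 →
      algebraMap K[X] (RatFunc K) (C (algebraMap D K r)) ≠ 0 := by
    intro r hr
    rw [Ne, FaithfulSMul.algebraMap_eq_zero_iff K[X] (RatFunc K), C_eq_zero]
    exact hr
  have h3 := hC d hd'
  have h4 := hC e he'
  have h5 : algebraMap K[X] (RatFunc K) q ≠ 0 := by
    rw [Ne, FaithfulSMul.algebraMap_eq_zero_iff K[X] (RatFunc K)]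
    exact nonZeroDivisors.ne_zero hq
  field_simp

/-- **The glued algebra.** -/
theorem general {π : D} (hπ : Prime π) (hinf : Infinite (D ⧸ Ideal.span {π})) :
    (Subalgebra.toSubmodule (glued D K π)).FG ∧
      Submodule.span K (glued D K π : Set (K × K)) = ⊤ ∧
      IsIntegrallyClosed (IntK D K (glued D K π)) ∧
      ∃ b : K × K, IsIntegral D b ∧ b ∉ glued D K π := by
  refine ⟨fg_glued π, glued_span hπ.ne_zero, ?_, (1, 0), ?_, ?_⟩
  · have hfr := isFractionRing_IntK (D := D) (glued D K π)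
    rw [isIntegrallyClosed_iff (RatFunc K)]
    intro x hx
    obtain ⟨f, hf, hfx⟩ := (integral_closure (glued D K π) (integral_glued π) x).mp hx
    exact ⟨⟨f, mem_IntK_of hπ hinf hf⟩, hfx⟩
  · refine ⟨X ^ 2 - X, ?_, ?_⟩
    · exact (monic_X_pow 2).sub_of_left (by rw [degree_X, degree_X_pow]; norm_num)
    · simp
  · rintro ⟨a, b, h, hab⟩
    obtain ⟨h1, h2⟩ := Prod.ext_iff.mp h
    have hinj := IsFractionRing.injective D K
    have ha : a = 1 := hinj (by rw [map_one]; exact h1.symm)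
    have hb : b = 0 := hinj (by rw [map_zero]; exact h2.symm)
    rw [ha, hb, sub_zero] at hab
    exact prime_ne_dvd_one hπ hab

end General

section Example

/-- The ring `ℤ + tℚ[t]` of rational polynomials with integral constant term. -/
def D0 : Subalgebra ℤ ℚ[X] where
  carrier := {f | ∃ n : ℤ, f.coeff 0 = n}
  mul_mem' := by
    rintro f g ⟨n, hn⟩ ⟨m, hm⟩
    exact ⟨n * m, by rw [mul_coeff_zero, hn, hm]; push_cast; ring⟩
  add_mem' := by
    rintro f g ⟨n, hn⟩ ⟨m, hm⟩
    exact ⟨n + m, by rw [coeff_add, hn, hm]; push_cast; ring⟩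
  algebraMap_mem' := fun r => ⟨r, by simp⟩

theorem mem_D0 {f : ℚ[X]} : f ∈ D0 ↔ ∃ n : ℤ, f.coeff 0 = n := Iff.rfl

/-- The constant term, as a ring homomorphism to `ℤ`. -/
noncomputable def const : D0 →+* ℤ where
  toFun f := (f.1.coeff 0).num
  map_one' := by simp
  map_zero' := by simp
  map_mul' := by
    rintro ⟨f, n, hn⟩ ⟨g, m, hm⟩
    have h1 : (f * g).coeff 0 = ((n * m : ℤ) : ℚ) := by
      rw [mul_coeff_zero, hn, hm]; push_cast; ring
    show ((f * g).coeff 0).num = (f.coeff 0).num * (g.coeff 0).num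
    rw [h1, hn, hm]
    simp only [Rat.num_intCast]
  map_add' := by
    rintro ⟨f, n, hn⟩ ⟨g, m, hm⟩
    have h1 : (f + g).coeff 0 = ((n + m : ℤ) : ℚ) := by
      rw [coeff_add, hn, hm]; push_cast; ring
    show ((f + g).coeff 0).num = (f.coeff 0).num + (g.coeff 0).num
    rw [h1, hn, hm]
    simp only [Rat.num_intCast]

instance : FaithfulSMul D0 (RatFunc ℚ) := by
  rw [faithfulSMul_iff_algebraMap_injective]
  intro x y h
  exact Subtype.ext (IsFractionRing.injective ℚ[X] (RatFunc ℚ) h)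

instance : IsFractionRing D0 (RatFunc ℚ) := by
  apply IsFractionRing.of_field
  intro z
  obtain ⟨p, q, hq, rfl⟩ := IsFractionRing.div_surjective (A := ℚ[X]) z
  refine ⟨⟨X * p, 0, by simp⟩, ⟨X * q, 0, by simp⟩, ?_⟩
  have h1 : ∀ x : D0, algebraMap D0 (RatFunc ℚ) x = algebraMap ℚ[X] (RatFunc ℚ) (x : ℚ[X]) :=
    fun x => rfl
  rw [h1, h1]
  simp only [map_mul]
  have h5 : algebraMap ℚ[X] (RatFunc ℚ) q ≠ 0 := by
    rw [Ne, FaithfulSMul.algebraMap_eq_zero_iff ℚ[X] (RatFunc ℚ)]
    exact nonZeroDivisors.ne_zero hq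
  have h6 : algebraMap ℚ[X] (RatFunc ℚ) X ≠ 0 := by
    rw [Ne, FaithfulSMul.algebraMap_eq_zero_iff ℚ[X] (RatFunc ℚ)]
    exact X_ne_zero
  field_simp

instance : IsIntegrallyClosed D0 := by
  rw [isIntegrallyClosed_iff (RatFunc ℚ)]
  intro x hx
  have h1 : IsIntegral ℚ[X] x := hx.tower_top
  obtain ⟨f, rfl⟩ := IsIntegrallyClosed.isIntegral_iff.mp h1
  have h2 : IsIntegral D0 f :=
    (isIntegral_algebraMap_iff (IsFractionRing.injective ℚ[X] (RatFunc ℚ))).mp hx
  have h3 : IsIntegral ℤ (evalRingHom (0 : ℚ) f) := by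
    apply h2.map_of_comp_eq const (evalRingHom (0 : ℚ))
    ext ⟨g, n, hn⟩
    show ((((g.coeff 0).num : ℤ) : ℚ)) = eval 0 g
    rw [hn, Rat.num_intCast, ← coeff_zero_eq_eval_zero, hn]
  obtain ⟨n, hn⟩ := IsIntegrallyClosed.isIntegral_iff.mp h3
  refine ⟨⟨f, n, ?_⟩, rfl⟩
  rw [coeff_zero_eq_eval_zero]
  exact hn.symm

/-- The element `1 + t` of `ℤ + tℚ[t]`. -/
noncomputable def pi0 : D0 := ⟨X + C 1, 1, by simp⟩

theorem pi0_dvd {f : D0} : pi0 ∣ f ↔ eval (-1) (f : ℚ[X]) = 0 := by
  constructor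
  · rintro ⟨g, rfl⟩
    show eval (-1) ((X + C 1) * (g : ℚ[X])) = 0
    simp
  · intro h
    have h1 : (X - C (-1) : ℚ[X]) ∣ (f : ℚ[X]) := dvd_iff_isRoot.mpr h
    obtain ⟨g, hg⟩ := h1
    obtain ⟨n, hn⟩ := f.2
    have h2 : g.coeff 0 = n := by
      rw [hg, mul_coeff_zero] at hn
      simpa using hn
    refine ⟨⟨g, n, h2⟩, Subtype.ext ?_⟩
    show (f : ℚ[X]) = (X + C 1) * g
    rw [hg]
    simp

theorem pi0_prime : Prime pi0 := by
  refine ⟨?_, ?_, ?_⟩
  · intro h
    have h1 : (X + C 1 : ℚ[X]) = 0 := congrArg Subtype.val h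
    exact X_add_C_ne_zero (1 : ℚ) h1
  · intro h
    have h1 : pi0 ∣ 1 := h.dvd
    rw [pi0_dvd] at h1
    simp at h1
  · intro a b hab
    rw [pi0_dvd] at hab ⊢
    rw [pi0_dvd]
    have h1 : eval (-1) (a : ℚ[X]) * eval (-1) (b : ℚ[X]) = 0 := by
      rw [← eval_mul]; exact hab
    exact mul_eq_zero.mp h1

theorem pi0_infinite : Infinite (D0 ⧸ Ideal.span {pi0}) := by
  apply Infinite.of_injective (fun n : ℤ => Ideal.Quotient.mk (Ideal.span {pi0}) (n : D0))
  intro n m h
  have h1 : ((n : D0) - (m : D0)) ∈ Ideal.span {pi0} := Ideal.Quotient.eq.mp h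
  rw [Ideal.mem_span_singleton, pi0_dvd] at h1
  have h2 : (((n : D0) - (m : D0) : D0) : ℚ[X]) = (n : ℚ[X]) - (m : ℚ[X]) := by simp
  rw [h2] at h1
  simp only [eval_sub, eval_intCast] at h1
  exact_mod_cast sub_eq_zero.mp h1

theorem half_mem (a : D0) : ∃ b : D0, 2 * b = a ^ 2 - a := by
  obtain ⟨f, n, hn⟩ := a
  obtain ⟨k, hk⟩ := (Int.even_mul_pred_self n)
  refine ⟨⟨C (1 / 2) * (f ^ 2 - f), k, ?_⟩, Subtype.ext ?_⟩
  · rw [mul_coeff_zero, coeff_sub, pow_two, mul_coeff_zero, hn, coeff_C_zero]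
    have : ((n : ℚ) * n - n) = ((n * (n - 1) : ℤ) : ℚ) := by push_cast; ring
    rw [this, hk]
    push_cast; ring
  · show (2 : ℚ[X]) * (C (1 / 2) * (f ^ 2 - f)) = f ^ 2 - f
    have : (2 : ℚ[X]) = C 2 := rfl
    rw [this, ← mul_assoc, ← C_mul]
    norm_num

/-- The polynomial `(Y ^ 2 - Y) / 2`. -/
noncomputable def bin : (RatFunc ℚ)[X] := C (1 / 2) * (X ^ 2 - X)

theorem bin_mem : bin ∈ IntK D0 (RatFunc ℚ) (glued D0 (RatFunc ℚ) pi0) := by
  apply mem_IntK_of pi0_prime pi0_infinite
  have key : ∀ a : D0, ∃ b : D0, algebraMap D0 (RatFunc ℚ) b =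
      aeval (algebraMap D0 (RatFunc ℚ) a) bin := by
    intro a
    obtain ⟨b, hb⟩ := half_mem a
    refine ⟨b, ?_⟩
    have h1 : algebraMap D0 (RatFunc ℚ) (2 * b) = algebraMap D0 (RatFunc ℚ) (a ^ 2 - a) := by
      rw [hb]
    simp only [map_mul, map_ofNat, map_sub, map_pow] at h1
    simp only [bin, map_mul, aeval_C, map_sub, map_pow, aeval_X, Algebra.algebraMap_self,
      RingHom.id_apply]
    rw [← h1]
    ring
  rintro _ ⟨a, b, rfl, _⟩
  obtain ⟨a', ha'⟩ := key a
  obtain ⟨b', hb'⟩ := key b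
  rw [aeval_prod_apply, ← ha', ← hb']
  refine ⟨(X - C a') * (X - C b'), (monic_X_sub_C _).mul (monic_X_sub_C _), ?_⟩
  rw [← aeval_def, aeval_prod_apply]
  simp

theorem bin_notMem : ¬ ∃ F : D0[X], F.map (algebraMap D0 (RatFunc ℚ)) = bin := by
  rintro ⟨F, hF⟩
  have h1 := congrArg (fun p => p.coeff 2) hF
  simp only [bin, coeff_map, coeff_C_mul, coeff_sub, coeff_X_pow, coeff_X] at h1
  norm_num at h1
  have h2 : algebraMap D0 (RatFunc ℚ) (2 * F.coeff 2) = algebraMap D0 (RatFunc ℚ) 1 := by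
    rw [map_mul, h1, map_ofNat, map_one]; norm_num
  have h3 : 2 * F.coeff 2 = 1 := FaithfulSMul.algebraMap_injective D0 (RatFunc ℚ) h2
  obtain ⟨n, hn⟩ := (F.coeff 2).2
  have h4 : ((2 * F.coeff 2 : D0) : ℚ[X]).coeff 0 = 1 := by rw [h3]; simp
  have h5 : ((2 * F.coeff 2 : D0) : ℚ[X]) = C 2 * ((F.coeff 2 : D0) : ℚ[X]) := rfl
  rw [h5, coeff_C_mul, hn] at h4
  have h6 : (2 * n : ℤ) = 1 := by exact_mod_cast h4
  omega

end Example

/-- **`Int_K(A)` integrally closed does not imply `A = A'`.**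

(1) Let `D` be any integrally closed domain with fraction field `K` and `π` a prime element of `D`
with `D / πD` infinite, and let `A = {(a, b) ∈ D × D : π ∣ a - b}`, a `D`-subalgebra of the
`K`-algebra `B = K × K`.  Then `A` is finitely generated as a `D`-module and spans `B` over `K` (so
that `B = A ⊗_D K`), the ring `Int_K(A)` is integrally closed, and some element of `B` is integral
over `D` and is not in `A`.

(2) There are such a domain `D` and prime element `π` for which, in addition, `Int_K(A)` is strictly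
larger than `D[X]`. -/
theorem result :
    (∀ (D : Type u) [CommRing D] [IsDomain D] [IsIntegrallyClosed D] (K : Type v) [Field K]
        [Algebra D K] [IsFractionRing D K] (π : D), Prime π → Infinite (D ⧸ Ideal.span {π}) →
        (Subalgebra.toSubmodule (glued D K π)).FG ∧
          Submodule.span K (glued D K π : Set (K × K)) = ⊤ ∧
          IsIntegrallyClosed (IntK D K (glued D K π)) ∧
          ∃ b : K × K, IsIntegral D b ∧ b ∉ glued D K π) ∧
      ∃ (D : Type) (_ : CommRing D) (_ : IsDomain D) (_ : IsIntegrallyClosed D) (K : Type)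
        (_ : Field K) (_ : Algebra D K) (_ : IsFractionRing D K) (π : D),
        Prime π ∧ Infinite (D ⧸ Ideal.span {π}) ∧
          ∃ f ∈ IntK D K (glued D K π), ¬ ∃ F : D[X], F.map (algebraMap D K) = f :=
  ⟨fun _ _ _ _ _ _ _ _ _ hπ hinf => general hπ hinf,
    D0, inferInstance, inferInstance, inferInstance, RatFunc ℚ, inferInstance, inferInstance,
    inferInstance, pi0, pi0_prime, pi0_infinite, bin, bin_mem, bin_notMem⟩

end Pool.Agent.Results.MP_f9f43c_al.NotNecessarilyMaximal
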